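import Mathlib
import Pool.Agent.MP_1b3842_gt.H25.Core

/-!
Under CH there is a cFin-scale that is a Menger space.
-/

namespace Pool.Agent.Results.MP_1b3842_gt.MengerScale

open Filter Cardinal Set

/-- Infinite subsets of the naturals, identified with their increasing enumerations; the topology is
the subspace topology from the Baire space. -/
abbrev InfSet : Type := {a : ℕ → ℕ // StrictMono a}

/-- `a n ≤ b n` for all but finitely many `n`. -/
def LeStar (a b : InfSet) : Prop := ∀ᶠ n in atTop, a.1 n ≤ b.1 n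

/-- `a n ≤ b n` for infinitely many `n`. -/
def LeInf (a b : InfSet) : Prop := ∃ᶠ n in atTop, a.1 n ≤ b.1 n

/-- The bounding number: the least size of a family with no eventual upper bound. -/
noncomputable def bNum : Cardinal.{0} :=
  sInf {κ | ∃ A : Set InfSet, (¬ ∃ c : InfSet, ∀ a ∈ A, LeStar a c) ∧ #A = κ}

/-- cFin-scales. -/
def IsCFinScale (X : Set InfSet) : Prop :=
  bNum ≤ #X ∧ ∀ b : InfSet, ∃ c : InfSet, LeInf b c ∧
    #{x : InfSet | x ∈ X ∧ ¬ LeStar c x} < bNum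

/-- The Menger property. -/
def IsMenger (Y : Type) [TopologicalSpace Y] : Prop :=
  ∀ U : ℕ → Set (Set Y), (∀ n, (∀ u ∈ U n, IsOpen u) ∧ ⋃₀ U n = Set.univ) →
    ∃ F : ℕ → Set (Set Y), (∀ n, (F n).Finite ∧ F n ⊆ U n) ∧
      ∀ y : Y, ∃ᶠ n in atTop, y ∈ ⋃₀ F n

open Pool.Agent.MP_1b3842_gt.H25

theorem aleph0_lt_bNum (A₀ : Set InfSet) (hA₀ : ¬ ∃ c : InfSet, ∀ a ∈ A₀, LeStar a c) :
    ℵ₀ < bNum := by
  obtain ⟨A, hA, hcard⟩ : bNum ∈
      {κ | ∃ A : Set InfSet, (¬ ∃ c : InfSet, ∀ a ∈ A, LeStar a c) ∧ #A = κ} :=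
    csInf_mem ⟨_, A₀, hA₀, rfl⟩
  by_contra hle
  have hc : A.Countable := by
    rw [← Cardinal.le_aleph0_iff_set_countable, hcard]
    exact not_lt.1 hle
  obtain ⟨g, hg⟩ := exists_bound (Subtype.val '' A) (hc.image _)
  refine hA ⟨⟨Inc g, strictMono_inc g⟩, fun a ha => ?_⟩
  filter_upwards [hg a.1 ⟨a, ha, rfl⟩] with n hn using hn.trans (le_inc g n)

theorem result (hCH : Cardinal.continuum.{0} = Cardinal.aleph 1) :
    ∃ X : Set InfSet, IsCFinScale X ∧ IsMenger X := by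
  classical
  let ι : Type := (Cardinal.aleph 1 : Cardinal.{0}).ord.ToType
  have hι : ∀ β : ι, (Iio β).Countable := by
    intro β
    rw [← Cardinal.le_aleph0_iff_set_countable, ← Cardinal.lt_aleph_one_iff]
    simpa [ι] using Cardinal.mk_Iio_lt β
  obtain ⟨σ⟩ : Nonempty (ι ≃ (ℕ → Set ℕ) × (ℕ → ℕ)) := by
    rw [← Cardinal.eq]
    simp [ι, ← hCH]
  obtain ⟨e, he⟩ := TopologicalSpace.exists_seq_basis (ℕ → ℕ)
  have heo : ∀ i, IsOpen (e i) := fun i => he.isOpen (mem_range_self i)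
  obtain ⟨x, hx1, hx2, hx3⟩ := construction hι e heo (fun β => (σ β).1) (fun β => (σ β).2)
  let a : ι → InfSet := fun β => ⟨Inc (x β), strictMono_inc _⟩
  have hb : ∀ b : ℕ → ℕ, ∃ β, ∀ k, ∃ n, k ≤ n ∧ b n < x β n := by
    intro b
    refine ⟨σ.symm (fun _ => ∅, b), fun k => ?_⟩
    simpa using hx2 (σ.symm (fun _ => ∅, b)) k
  have hunb : ¬ ∃ c : InfSet, ∀ y ∈ range a, LeStar y c := by
    rintro ⟨c, hc⟩
    obtain ⟨β, hβ⟩ := hb c.1
    obtain ⟨N, hN⟩ := eventually_atTop.1 (hc _ (mem_range_self β))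
    obtain ⟨n, hn, hlt⟩ := hβ N
    exact absurd ((le_inc (x β) n).trans (hN n hn)) (not_le.2 hlt)
  refine ⟨range a, ⟨csInf_le' ⟨range a, hunb, rfl⟩, fun b => ?_⟩, ?_⟩
  · obtain ⟨β, hβ⟩ := hb b.1
    refine ⟨a β, ?_, ?_⟩
    · rw [LeInf, frequently_atTop]
      intro k
      obtain ⟨n, hn, hlt⟩ := hβ k
      exact ⟨n, hn, hlt.le.trans (le_inc (x β) n)⟩
    · refine lt_of_le_of_lt ?_ (aleph0_lt_bNum _ hunb)
      rw [Cardinal.le_aleph0_iff_set_countable]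
      refine ((hι β).image a).mono ?_
      rintro _ ⟨⟨γ, rfl⟩, hγ⟩
      refine ⟨γ, ?_, rfl⟩
      by_contra hlt
      apply hγ
      have hle : Le (x β) (x γ) := by
        rcases (not_lt.1 (show ¬ γ < β from hlt)).eq_or_lt with h | h
        · rw [h]; exact Le.refl _
        · exact hx1 β γ h
      refine inc_Le hle fun C => ?_
      obtain ⟨N, hN⟩ := eventually_atTop.1 hle
      obtain ⟨n, hn, hlt⟩ := hβ (max N C)
      exact ⟨n, (((le_max_right N C).trans hn).trans (b.2.id_le n)).trans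
        (hlt.le.trans (hN n ((le_max_left N C).trans hn)))⟩
  · intro U hU
    let pt : ι → range a := fun γ => ⟨a γ, mem_range_self γ⟩
    let S : ℕ → Set ℕ := fun n => {i | ∃ u ∈ U n, ∀ γ, x γ ∈ e i → pt γ ∈ u}
    have hcov : ∀ γ, x γ ∈ Cov e S := by
      intro γ n
      obtain ⟨u, hu, hγu⟩ : pt γ ∈ ⋃₀ U n := (hU n).2 ▸ mem_univ _
      obtain ⟨v, hv, rfl⟩ := isOpen_induced_iff.1 ((hU n).1 u hu)
      obtain ⟨w, hw, rfl⟩ := isOpen_induced_iff.1 hv
      obtain ⟨_, ⟨i, rfl⟩, hi1, hi2⟩ :=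
        he.exists_subset_of_mem_open (a := x γ) (u := Inc ⁻¹' w) hγu (hw.preimage continuous_inc)
      exact ⟨i, ⟨_, hu, fun δ hδ => hi2 hδ⟩, hi1⟩
    obtain ⟨g, hg⟩ := hx3 (σ.symm (S, 0)) (by simpa using hcov)
    simp only [Equiv.apply_symm_apply] at hg
    have hch : ∀ n i, ∃ u : Set (range a), i ∈ S n → u ∈ U n ∧ ∀ γ, x γ ∈ e i → pt γ ∈ u := by
      intro n i
      by_cases hi : i ∈ S n
      · obtain ⟨u, hu⟩ := hi
        exact ⟨u, fun _ => hu⟩
      · exact ⟨∅, fun h => absurd h hi⟩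
    choose u hu using hch
    refine ⟨fun n => u n '' {i | i ∈ S n ∧ i ≤ g n}, fun n => ⟨?_, ?_⟩, ?_⟩
    · exact ((finite_Iic (g n)).subset fun i hi => hi.2).image _
    · rintro _ ⟨i, hi, rfl⟩
      exact (hu n i hi.1).1
    · rintro ⟨_, γ, rfl⟩
      rw [frequently_atTop]
      intro k
      obtain ⟨n, hn, i, hi, hig, hxi⟩ := hg γ k
      exact ⟨n, hn, u n i, ⟨i, ⟨hi, hig⟩, rfl⟩, (hu n i hi).2 γ hxi⟩

end Pool.Agent.Results.MP_1b3842_gt.MengerScale
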